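import Pool.Agent.H94_gen.Fin2

/-!
# Rigidity of the Hirzebruch-Kummer coverings of rigid line arrangements
-/

namespace Pool.Agent.Results.MP_bcb2f6_ag.RigidArrangements

open Pool.Agent.H94_hk

/-- For every infinitesimally rigid configuration `𝒞` of `k ≥ 6` lines, the Hirzebruch-Kummer
covering `HK_𝒞(n)` is infinitesimally rigid for every `n > k`. -/
theorem result : ∀ (k : ℕ), 6 ≤ k → ∀ 𝒞 : Rig.Config k, 𝒞.InfinitesimallyRigid →
    ∀ n, k < n → Rig.InfRigid 𝒞 n :=
  fun _ hk 𝒞 h n hn => Pool.Agent.H94_gen.main_rigid hk 𝒞 h n hn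

end Pool.Agent.Results.MP_bcb2f6_ag.RigidArrangements
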