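import Pool.Agent.H94_lr.RigArc

/-!
# The rigid line arrangements with rigid Hirzebruch-Kummer coverings
-/

namespace Pool.Agent.Results.MP_bcb2f6_ag.RigidCoverings

open Pool.Agent.H94_hk

/-- Let `𝒞` be a rigid configuration of `k` lines.  The Hirzebruch-Kummer covering `HK_𝒞(n)` is
rigid for all large `n` if and only if `k` is not `4` or `5`.  If `k` is not `4` or `5`, it is
rigid for every `n > k`; if `k` is `4` or `5`, it is not rigid for any `n ≥ 4`. -/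
theorem result : ∀ (k : ℕ) (𝒞 : Rig.Config k), 𝒞.Rigid →
    ((∃ N, ∀ n ≥ N, Rig.FormallyRigid 𝒞 n) ↔ k ≠ 4 ∧ k ≠ 5) ∧
    (k ≠ 4 ∧ k ≠ 5 → ∀ n > k, Rig.FormallyRigid 𝒞 n) ∧
    (k = 4 ∨ k = 5 → ∀ n ≥ 4, ¬ Rig.FormallyRigid 𝒞 n) :=
  fun _ 𝒞 hr =>
    have h := Pool.Agent.H94_lr.rigid_arc hr
    ⟨answer 𝒞 h, fun hk _ hn => pos_all 𝒞 h hk hn, fun hk _ hn => neg_all 𝒞 h hk hn⟩

end Pool.Agent.Results.MP_bcb2f6_ag.RigidCoverings
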